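import Mathlib
import Pool.Agent.K7.H28.ST.BridgeB

/-!
# Symplectic forms and bounded forms on the product with a vector space

`X` is a closed connected manifold, and `k` a natural number. `X` carries a symplectic form if
and only if `X × R ^ (2 k)` carries a closed two-form which is bounded with all its derivatives
along the second factor, and uniformly nondegenerate along it.

For `k > 0` the manifold `X × R ^ (2 k)` is open, so that nondegenerate closed two-forms exist on
it as soon as `X` is almost complex: the question whether `X` is symplectic becomes the question
whether one of them can be chosen bounded and uniformly nondegenerate.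
-/

set_option autoImplicit false

open Set
open scoped Manifold ContDiff

namespace Pool.Agent.Results.MP_9986fc_gt.BoundedForms

open Pool.Agent.Y501.SYP
open Pool.Agent.K7.H28.STP

theorem result (d k : ℕ) (X : Type) [TopologicalSpace X] [ChartedSpace (ES d) X]
    [IsManifold 𝓘(ℝ, ES d) ∞ X] [CompactSpace X] [ConnectedSpace X] :
    (∃ σ : Form (ES d) X 2, IsSymplectic σ) ↔
      ∃ w : PForm (ES d) (ES (2 * k)) X, IsBddClosed w ∧ UnifNondeg w :=
  boundedForms k

end Pool.Agent.Results.MP_9986fc_gt.BoundedForms
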