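import Mathlib
import Pool.Agent.K7.H28.SC.BridgeC

/-!
# Closed two-forms with continuous primitives taming an almost complex structure

`X` is a closed manifold with an almost complex structure `J` of class `C¹`, and `K` is a closed
subset whose `(d-1)`-dimensional Hausdorff measure is zero. `σ₀` is a smooth closed two-form on
`X`, and `β` is a continuous one-form on `X` which is smooth off `K`. If `σ = σ₀ + dβ` is weakly
taming off `K`, and if the components of the set of points near which `σ` is not uniformly taming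
are small, then the class of `σ₀` contains a symplectic form taming `J`. The form `σ` is only
defined off `K`, and no bound for it near `K` is assumed.
-/

set_option autoImplicit false

open Set MeasureTheory
open scoped Manifold ContDiff

namespace Pool.Agent.Results.MP_9986fc_gt.ContinuousPrimitives

open Pool.Agent.Y501.SYP
open Pool.Agent.K7.H28.SCP

theorem result (d : ℕ) (hd : 1 ≤ d) (X : Type) [TopologicalSpace X] [ChartedSpace (ES d) X]
    [IsManifold 𝓘(ℝ, ES d) ∞ X] [CompactSpace X] [T2Space X]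
    (J : End (ES d) X) (hJ : IsAlmostComplex J) (hJ1 : IsC1 J) (K : Set X)
    (hK : IsClosed K)
    (hH : ∀ x₀ : X, μH[(d : ℝ) - 1] (chartAt (ES d) x₀ '' (K ∩ (chartAt (ES d) x₀).source)) = 0)
    (σ₀ : Form (ES d) X 2) (hσ₀ : IsSmooth σ₀) (hσ₀c : IsClosedForm σ₀)
    (β : Form (ES d) X 1) (hβc : IsCont β) (hβ : SmoothOff β K)
    (σ : Form (ES d) X 2) (hβσ : EqPlusD σ σ₀ β K)
    (hpos : ∀ x, x ∉ K → ∀ v : TangentSpace 𝓘(ℝ, ES d) x, 0 ≤ qd σ J x v)
    (hsmall : ∀ z ∈ Crit σ J K, SmallAll J (connectedComponentIn (Crit σ J K) z) z) :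
    ∃ (α : Form (ES d) X 1) (ρ : Form (ES d) X 2), IsSmooth α ∧ IsSmooth ρ ∧ IsD α ρ ∧
      IsTamingSymplectic (addF σ₀ ρ) J :=
  continuousPrimitives hd J hJ hJ1 K hK hH σ₀ hσ₀ hσ₀c β hβc hβ σ hβσ hpos hsmall

end Pool.Agent.Results.MP_9986fc_gt.ContinuousPrimitives
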