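import Mathlib
import Pool.Agent.K7.H28.SY.BridgeS

/-!
# Closed two-forms with singular primitives taming an almost complex structure

`X` is a closed manifold with a continuous almost complex structure `J`, and `K` is a closed
subset which is locally covered by at most `C r ^ (-k)` balls of radius `r`, for all small `r`.
`σ₀` is a smooth closed two-form on `X`, and `β` is a one-form, smooth off `K`, of size at most
`C dist(·, K) ^ (-q)` near `K`. If `k < 2` and `k + q < 1`, if `σ = σ₀ + dβ` is weakly taming off
`K`, and if the components of the union of `K` and of the set where `σ` does not tame `J` are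
contained in `K` or small, then the class of `σ₀` contains a symplectic form taming `J`. No bound
for `σ` near `K` is assumed. The case of a finite set `K` is `k = 0`: then `β` may be unbounded,
of size at most `C dist(·, K) ^ (-q)` with `q < 1`.
-/

set_option autoImplicit false

open Set
open scoped Manifold ContDiff

namespace Pool.Agent.Results.MP_9986fc_gt.SingularPrimitives

open Pool.Agent.Y501.SYP
open Pool.Agent.K7.H28.SYP

theorem result (d : ℕ) (hd : 1 ≤ d) (X : Type) [TopologicalSpace X] [ChartedSpace (ES d) X]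
    [IsManifold 𝓘(ℝ, ES d) ∞ X] [CompactSpace X] [T2Space X]
    (J : End (ES d) X) (hJ : IsAlmostComplex J) (K : Set X) (hK : IsClosed K)
    (k q : ℝ) (hk : k < 2) (hkq : k + q < 1) (hbox : BoxBound (ES d) K k)
    (σ₀ : Form (ES d) X 2) (hσ₀ : IsSmooth σ₀) (hσ₀c : IsClosedForm σ₀)
    (β : Form (ES d) X 1) (σ : Form (ES d) X 2) (hβ : SmoothOff β K) (hσ : SmoothOff σ K)
    (hβσ : EqPlusD σ σ₀ β K) (hgrow : GrowthBound β K q)
    (hpos : ∀ x, x ∉ K → ∀ v : TangentSpace 𝓘(ℝ, ES d) x, 0 ≤ qd σ J x v)
    (hsmall : ∀ z ∈ BadSet σ J K, ¬ connectedComponentIn (BadSet σ J K) z ⊆ K →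
      SmallAll J (connectedComponentIn (BadSet σ J K) z) z) :
    ∃ (α : Form (ES d) X 1) (ρ : Form (ES d) X 2), IsSmooth α ∧ IsSmooth ρ ∧ IsD α ρ ∧
      IsTamingSymplectic (addF σ₀ ρ) J :=
  singularPrimitives hd J hJ K hK k q hk hkq hbox σ₀ hσ₀ hσ₀c β σ hβ hσ hβσ hgrow hpos hsmall

end Pool.Agent.Results.MP_9986fc_gt.SingularPrimitives
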