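import Mathlib
import Pool.Agent.K7.H28.SM.BridgeM

/-!
# Symplectic forms in an affine space of closed two-forms

`X` is a closed manifold of dimension `2 (m + 1)` oriented by a volume form `vol`, `σ` is any
closed two-form, and `S` is a linear space of closed two-forms which are decomposable (of rank at
most two) at every point. Some form `σ + ρ` with `ρ` in `S` is a positive symplectic form if and
only if every probability measure which annihilates the densities of the forms `ρ ∧ σ ^ m`, for
`ρ` in `S`, has a positive integral over the density of `σ ^ (m + 1)`.

Examples of such spaces `S`, which consist of exact forms, so that the class of `σ` is kept: the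
forms `l ∧ dg`, where `l` is a fixed closed one-form and `g` ranges over the smooth functions;
then the measures are the probability measures invariant under the flow of the vector field dual
to `l ∧ σ ^ m`. The forms `f^* dβ`, where `f` is a fixed map to a three-manifold.
-/

set_option autoImplicit false

open Set MeasureTheory
open scoped Manifold ContDiff

namespace Pool.Agent.Results.MP_9986fc_gt.TransportCriterion

open Pool.Agent.Y501.SYP
open Pool.Agent.R772.SYK
open Pool.Agent.K7.H28.SMP

theorem result (m d : ℕ) (hd : d = 2 * (m + 1)) (X : Type) [TopologicalSpace X]
    [ChartedSpace (ES d) X] [IsManifold 𝓘(ℝ, ES d) ∞ X] [CompactSpace X] [T2Space X]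
    [MeasurableSpace X] [BorelSpace X] (vol : TopForm (ES d) X m) (hvol : IsVolume vol)
    (σ : Form (ES d) X 2) (hσ : IsClosed2 σ) (S : Set (Form (ES d) X 2)) (hS : IsSpace S) :
    (∃ ρ ∈ S, IsPosSymplectic vol (addF σ ρ)) ↔ ∀ μ : Measure X, IsProbabilityMeasure μ →
      Annihilates μ vol σ S → 0 < ∫ x, topDens vol σ x ∂μ :=
  transportCriterion hd vol hvol σ hσ S hS

end Pool.Agent.Results.MP_9986fc_gt.TransportCriterion
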